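import Pool.Agent.Work.MP_b0c12c_nt_helper41.GSum

/-!
# Sharp lower bound for Selberg's `G` with one class for each prime in `(w, z]`
-/

set_option autoImplicit false

open Finset Nat ArithmeticFunction
open Pool.Agent.Work.MP_b0c12c_nt_helper41 (PQ PP mem_PQ GG gg PP_squarefree PP_pos)

namespace Pool.Agent.Work.MP_b0c12c_nt_helper55

/-- primes up to `w` -/
def PW (w : ℕ) : Finset ℕ := (Icc 1 w).filter Nat.Prime

theorem mem_PW {w p : ℕ} : p ∈ PW w ↔ p ≤ w ∧ p.Prime := by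
  rw [PW, mem_filter, mem_Icc]
  exact ⟨fun h => ⟨h.1.2, h.2⟩, fun h => ⟨⟨h.2.one_lt.le, h.1⟩, h.2⟩⟩

/-- `n ↦ 1 / n` -/
noncomputable def invHom : ℕ →* ℝ where
  toFun n := ((n : ℝ))⁻¹
  map_one' := by simp
  map_mul' a b := by push_cast; rw [mul_inv]

theorem invHom_apply (n : ℕ) : invHom n = ((n : ℝ))⁻¹ := rfl

/-- the part of `n` composed of the primes `> w`, without multiplicity -/
def LL (w n : ℕ) : ℕ := ∏ p ∈ n.primeFactors with w < p, p

theorem LL_dvd (w n : ℕ) : LL w n ∣ n := by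
  refine dvd_trans ?_ (Nat.prod_primeFactors_dvd n)
  exact Finset.prod_dvd_prod_of_subset _ _ _ (filter_subset _ _)

theorem LL_pos (w n : ℕ) : 0 < LL w n :=
  Finset.prod_pos fun _ hp => (Nat.prime_of_mem_primeFactors (mem_filter.1 hp).1).pos

theorem LL_dvd_PP {w z n : ℕ} (hz : n ≤ z) : LL w n ∣ PP w z := by
  apply Finset.prod_dvd_prod_of_subset
  intro p hp
  rw [mem_filter] at hp
  rw [mem_PQ]
  exact ⟨⟨hp.2, (Nat.le_of_mem_primeFactors hp.1).trans hz⟩, Nat.prime_of_mem_primeFactors hp.1⟩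

theorem LL_primeFactors (w n : ℕ) : (LL w n).primeFactors = n.primeFactors.filter (w < ·) :=
  Nat.primeFactors_prod fun _ hp => Nat.prime_of_mem_primeFactors (mem_filter.1 hp).1

theorem fiber_le (w D l : ℕ) (hl : 0 < l) :
    ∑ n ∈ Icc 1 D with LL w n = l, (1 : ℝ) / n ≤
      (1 / l) * ∏ p ∈ PW w ∪ l.primeFactors, (1 - 1 / (p : ℝ))⁻¹ := by
  set s := PW w ∪ l.primeFactors with hs
  have hlt : ∀ {p : ℕ}, p.Prime → ‖invHom p‖ < 1 := by
    intro p hp
    rw [invHom_apply, norm_inv, Real.norm_natCast]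
    apply inv_lt_one_of_one_lt₀
    exact_mod_cast hp.one_lt
  obtain ⟨hsum, hhas⟩ :=
    EulerProduct.summable_and_hasSum_factoredNumbers_prod_filter_prime_geometric hlt s
  have hsp : (s.filter Nat.Prime) = s := by
    apply filter_true_of_mem
    intro p hp
    rw [hs, mem_union, mem_PW] at hp
    rcases hp with hp | hp
    · exact hp.2
    · exact Nat.prime_of_mem_primeFactors hp
  rw [hsp] at hhas
  have hprod : ∏ p ∈ s, (1 - invHom p)⁻¹ = ∏ p ∈ s, (1 - 1 / (p : ℝ))⁻¹ := by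
    apply prod_congr rfl
    intro p _
    rw [invHom_apply, one_div]
  rw [hprod] at hhas
  -- the quotients
  have hmem : ∀ n ∈ (Icc 1 D).filter (fun n => LL w n = l), n / l ∈ Nat.factoredNumbers s := by
    intro n hn
    rw [mem_filter, mem_Icc] at hn
    have hdvd : l ∣ n := by rw [← hn.2]; exact LL_dvd w n
    rw [Nat.mem_factoredNumbers_iff_primeFactors_subset]
    refine ⟨(Nat.div_pos (Nat.le_of_dvd (by omega) hdvd) hl).ne', ?_⟩
    intro p hp
    have hpn : p ∈ n.primeFactors :=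
      Nat.primeFactors_mono (Nat.div_dvd_of_dvd hdvd) (by omega) hp
    rw [hs, mem_union, mem_PW]
    by_cases hpw : p ≤ w
    · exact Or.inl ⟨hpw, Nat.prime_of_mem_primeFactors hpn⟩
    · right
      rw [← hn.2, LL_primeFactors, mem_filter]
      exact ⟨hpn, by omega⟩
  set F := ((Icc 1 D).filter (fun n => LL w n = l)).attach.image
    (fun n => (⟨n.1 / l, hmem n.1 n.2⟩ : Nat.factoredNumbers s)) with hF
  have hinj : Set.InjOn (fun n : {x // x ∈ (Icc 1 D).filter (fun n => LL w n = l)} =>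
      (⟨n.1 / l, hmem n.1 n.2⟩ : Nat.factoredNumbers s))
      (((Icc 1 D).filter (fun n => LL w n = l)).attach : Set _) := by
    intro a _ b _ hab
    simp only [Subtype.mk.injEq] at hab
    have ha := (mem_filter.1 a.2).2
    have hb := (mem_filter.1 b.2).2
    have hda : l ∣ a.1 := dvd_trans (dvd_of_eq ha.symm) (LL_dvd w a.1)
    have hdb : l ∣ b.1 := dvd_trans (dvd_of_eq hb.symm) (LL_dvd w b.1)
    apply Subtype.ext
    rw [← Nat.div_mul_cancel hda, ← Nat.div_mul_cancel hdb, hab]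
  have h1 : ∑ m ∈ F, invHom m ≤ ∏ p ∈ s, (1 - 1 / (p : ℝ))⁻¹ :=
    sum_le_hasSum F (fun m _ => by rw [invHom_apply]; positivity) hhas
  have h2 : ∑ m ∈ F, invHom m = ∑ n ∈ (Icc 1 D).filter (fun n => LL w n = l),
      ((n / l : ℕ) : ℝ)⁻¹ := by
    rw [hF, sum_image hinj, ← sum_attach ((Icc 1 D).filter (fun n => LL w n = l))]
    rfl
  rw [h2] at h1
  have hl0 : (0 : ℝ) < l := by exact_mod_cast hl
  calc ∑ n ∈ Icc 1 D with LL w n = l, (1 : ℝ) / n
      = (1 / l) * ∑ n ∈ (Icc 1 D).filter (fun n => LL w n = l), ((n / l : ℕ) : ℝ)⁻¹ := by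
        rw [mul_sum]
        apply sum_congr rfl
        intro n hn
        rw [mem_filter, mem_Icc] at hn
        have hdvd : l ∣ n := by rw [← hn.2]; exact LL_dvd w n
        rw [Nat.cast_div hdvd hl0.ne']
        field_simp
    _ ≤ _ := mul_le_mul_of_nonneg_left h1 (by positivity)

theorem log_le_sum_inv (x : ℕ) (hx : 1 ≤ x) : Real.log x ≤ ∑ n ∈ Icc 1 x, (1 : ℝ) / n := by
  have h1 := log_add_one_le_harmonic x
  have h2 : ((harmonic x : ℚ) : ℝ) = ∑ n ∈ Icc 1 x, (1 : ℝ) / n := by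
    rw [harmonic_eq_sum_Icc]
    push_cast
    apply sum_congr rfl
    intro n _
    rw [one_div]
  rw [h2] at h1
  refine le_trans ?_ h1
  apply Real.log_le_log
  · exact_mod_cast hx
  · push_cast; linarith

/-- **Sharp lower bound for `G(D)`.** -/
theorem GG_ge_log {w z D : ℕ} (hD : 1 ≤ D) (hDz : D ≤ z) :
    (∏ p ∈ PW w, (1 - 1 / (p : ℝ))) * Real.log D ≤ GG w z D := by
  have hpos : 0 < ∏ p ∈ PW w, (1 - 1 / (p : ℝ)) := by
    apply prod_pos
    intro p hp
    have hp1 : (1 : ℝ) < p := by exact_mod_cast (mem_PW.1 hp).2.one_lt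
    rw [sub_pos, div_lt_one (by linarith)]
    exact hp1
  have h1 : ∑ n ∈ Icc 1 D, (1 : ℝ) / n ≤
      (∏ p ∈ PW w, (1 - 1 / (p : ℝ)))⁻¹ * GG w z D := by
    have hmap : ∀ n ∈ Icc 1 D, LL w n ∈ (PP w z).divisors.filter (· ≤ D) := by
      intro n hn
      rw [mem_Icc] at hn
      rw [mem_filter, mem_divisors]
      exact ⟨⟨LL_dvd_PP (by omega), (PP_pos w z).ne'⟩,
        (Nat.le_of_dvd (by omega) (LL_dvd w n)).trans hn.2⟩
    rw [← sum_fiberwise_of_maps_to hmap, GG, mul_sum]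
    apply sum_le_sum
    intro l hl
    rw [mem_filter, mem_divisors] at hl
    have hl0 : 0 < l := Nat.pos_of_ne_zero (ne_zero_of_dvd_ne_zero hl.1.2 hl.1.1)
    have hsq : Squarefree l := (PP_squarefree w z).squarefree_of_dvd hl.1.1
    refine (fiber_le w D l hl0).trans (le_of_eq ?_)
    have hdis : Disjoint (PW w) l.primeFactors := by
      rw [disjoint_left]
      intro p hp hpl
      have h2 := (mem_PW.1 hp).1
      have h3 : p ∈ (PP w z).primeFactors :=
        Nat.primeFactors_mono hl.1.1 (PP_pos w z).ne' hpl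
      rw [Pool.Agent.Work.MP_b0c12c_nt_helper41.PP_primeFactors, mem_PQ] at h3
      omega
    rw [prod_union hdis, prod_inv_distrib]
    have h4 : (1 / (l : ℝ)) * ∏ p ∈ l.primeFactors, (1 - 1 / (p : ℝ))⁻¹ = gg l := by
      have h5 : (l : ℝ) = ∏ p ∈ l.primeFactors, (p : ℝ) := by
        rw [← Nat.cast_prod, Nat.prod_primeFactors_of_squarefree hsq]
      rw [gg, one_div, h5, ← prod_inv_distrib, ← prod_mul_distrib]
      apply prod_congr rfl
      intro p hp
      have hp1 : (1 : ℝ) < p := by exact_mod_cast (Nat.prime_of_mem_primeFactors hp).one_lt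
      have hp2 : (p : ℝ) - 1 ≠ 0 := by linarith
      have hp3 : (p : ℝ) ≠ 0 := by linarith
      have hp4 : 1 - 1 / (p : ℝ) ≠ 0 := by
        rw [sub_ne_zero]; intro h; rw [eq_div_iff hp3] at h; linarith
      field_simp
    rw [← h4]
    ring
  have h2 := (log_le_sum_inv D hD).trans h1
  rw [inv_mul_eq_div, le_div_iff₀ hpos] at h2
  linarith

end Pool.Agent.Work.MP_b0c12c_nt_helper55
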