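import Mathlib

/-!
# The asymmetric local lemma
-/

set_option autoImplicit false
set_option linter.unusedSectionVars false

open MeasureTheory Finset

namespace Pool.Agent.Work.MP_b0c12c_nt_helper55

variable {Ω : Type*} [MeasurableSpace Ω] {μ : Measure Ω} [IsProbabilityMeasure μ]
  {ι : Type*} [DecidableEq ι]

/-- none of the events `E j`, `j ∈ J` happens -/
def AA (E : ι → Set Ω) (J : Finset ι) : Set Ω := ⋂ j ∈ J, (E j)ᶜ

theorem AA_empty (E : ι → Set Ω) : AA E ∅ = Set.univ := by simp [AA]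

theorem AA_insert (E : ι → Set Ω) (i : ι) (J : Finset ι) :
    AA E (insert i J) = (E i)ᶜ ∩ AA E J := by
  simp [AA]

theorem AA_anti (E : ι → Set Ω) {J J' : Finset ι} (h : J ⊆ J') : AA E J' ⊆ AA E J := by
  intro ω hω
  simp only [AA, Set.mem_iInter] at hω ⊢
  exact fun j hj => hω j (h hj)

theorem AA_meas {E : ι → Set Ω} (hm : ∀ i, MeasurableSet (E i)) (J : Finset ι) :
    MeasurableSet (AA E J) := by
  unfold AA
  exact Finset.measurableSet_biInter _ fun j _ => (hm j).compl

theorem real_insert {E : ι → Set Ω} (hm : ∀ i, MeasurableSet (E i)) (i : ι) (J : Finset ι) :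
    μ.real (AA E (insert i J)) = μ.real (AA E J) - μ.real (E i ∩ AA E J) := by
  rw [AA_insert]
  have h := measureReal_inter_add_sdiff (μ := μ) (s := AA E J) (hm i)
  have h1 : AA E J ∩ E i = E i ∩ AA E J := Set.inter_comm _ _
  have h2 : AA E J \ E i = (E i)ᶜ ∩ AA E J := by rw [Set.sdiff_eq, Set.inter_comm]
  rw [h1, h2] at h
  linarith

/-- The local lemma: conditional probabilities. The index set is `I`; `N i` are the neighbours of
`i`. -/
theorem lll_cond {E : ι → Set Ω} (hm : ∀ i, MeasurableSet (E i)) (I : Finset ι)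
    (N : ι → Finset ι) (x : ι → ℝ) (hx0 : ∀ i ∈ I, 0 ≤ x i) (hx1 : ∀ i ∈ I, x i ≤ 1)
    (hN : ∀ i ∈ I, N i ⊆ I)
    (hind : ∀ i ∈ I, ∀ J : Finset ι, J ⊆ I → i ∉ J → Disjoint J (N i) →
      μ.real (E i ∩ AA E J) = μ.real (E i) * μ.real (AA E J))
    (h : ∀ i ∈ I, μ.real (E i) ≤ x i * ∏ j ∈ N i, (1 - x j)) :
    ∀ n : ℕ, ∀ J : Finset ι, J.card = n → J ⊆ I → ∀ i ∈ I, i ∉ J →
      μ.real (E i ∩ AA E J) ≤ x i * μ.real (AA E J) := by
  intro n
  induction n using Nat.strong_induction_on with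
  | _ n ih =>
    intro J hJn hJI i hi hiJ
    -- growing from J₂ to J₂ ∪ K
    have key : ∀ K : Finset ι, K ⊆ J ∩ N i →
        (∏ j ∈ K, (1 - x j)) * μ.real (AA E (J \ N i)) ≤ μ.real (AA E (K ∪ (J \ N i))) := by
      intro K
      induction K using Finset.induction_on with
      | empty => intro _; simp
      | insert k K hkK ihK =>
        intro hK
        have hk : k ∈ J ∩ N i := hK (mem_insert_self _ _)
        have hKs : K ⊆ J ∩ N i := (subset_insert _ _).trans hK
        have h1 := ihK hKs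
        rw [mem_inter] at hk
        have hkI : k ∈ I := hJI hk.1
        have hsub : K ∪ (J \ N i) ⊆ J := by
          intro a ha
          rw [mem_union] at ha
          rcases ha with ha | ha
          · exact (mem_inter.1 (hKs ha)).1
          · exact (mem_sdiff.1 ha).1
        have hknot : k ∉ K ∪ (J \ N i) := by
          rw [mem_union]
          rintro (ha | ha)
          · exact hkK ha
          · exact (mem_sdiff.1 ha).2 hk.2
        have hcard : (K ∪ (J \ N i)).card < n := by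
          rw [← hJn]
          apply card_lt_card
          refine ⟨hsub, fun hcon => hknot (hcon hk.1)⟩
        have h2 := ih _ hcard (K ∪ (J \ N i)) rfl (hsub.trans hJI) k hkI hknot
        rw [insert_union, real_insert hm, prod_insert hkK]
        have h3 : 0 ≤ 1 - x k := by linarith [hx1 k hkI]
        calc (1 - x k) * (∏ j ∈ K, (1 - x j)) * μ.real (AA E (J \ N i))
            = (1 - x k) * ((∏ j ∈ K, (1 - x j)) * μ.real (AA E (J \ N i))) := by ring
          _ ≤ (1 - x k) * μ.real (AA E (K ∪ (J \ N i))) := mul_le_mul_of_nonneg_left h1 h3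
          _ ≤ _ := by linarith
    have h4 := key (J ∩ N i) subset_rfl
    have hJ : (J ∩ N i) ∪ (J \ N i) = J := by
      ext a
      simp only [mem_union, mem_inter, mem_sdiff]
      tauto
    rw [hJ] at h4
    have h5 : μ.real (E i ∩ AA E J) ≤ μ.real (E i ∩ AA E (J \ N i)) := by
      apply measureReal_mono _ (measure_ne_top _ _)
      exact Set.inter_subset_inter_right _ (AA_anti E sdiff_subset)
    rw [hind i hi (J \ N i) (sdiff_subset.trans hJI) (fun hc => hiJ (mem_sdiff.1 hc).1)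
      sdiff_disjoint] at h5
    have h6 : ∏ j ∈ N i, (1 - x j) ≤ ∏ j ∈ J ∩ N i, (1 - x j) := by
      rw [← prod_sdiff (inter_subset_right : J ∩ N i ⊆ N i)]
      have h7 : ∏ j ∈ N i \ (J ∩ N i), (1 - x j) ≤ 1 := by
        apply prod_le_one
        · intro j hj
          linarith [hx1 j (hN i hi (mem_sdiff.1 hj).1)]
        · intro j hj
          linarith [hx0 j (hN i hi (mem_sdiff.1 hj).1)]
      have h8 : 0 ≤ ∏ j ∈ J ∩ N i, (1 - x j) := by
        apply prod_nonneg
        intro j hj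
        linarith [hx1 j (hN i hi (mem_inter.1 hj).2)]
      calc _ ≤ 1 * ∏ j ∈ J ∩ N i, (1 - x j) := mul_le_mul_of_nonneg_right h7 h8
        _ = _ := one_mul _
    calc μ.real (E i ∩ AA E J) ≤ μ.real (E i) * μ.real (AA E (J \ N i)) := h5
      _ ≤ (x i * ∏ j ∈ N i, (1 - x j)) * μ.real (AA E (J \ N i)) :=
        mul_le_mul_of_nonneg_right (h i hi) measureReal_nonneg
      _ ≤ (x i * ∏ j ∈ J ∩ N i, (1 - x j)) * μ.real (AA E (J \ N i)) := by
        apply mul_le_mul_of_nonneg_right _ measureReal_nonneg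
        exact mul_le_mul_of_nonneg_left h6 (hx0 i hi)
      _ = x i * ((∏ j ∈ J ∩ N i, (1 - x j)) * μ.real (AA E (J \ N i))) := by ring
      _ ≤ x i * μ.real (AA E J) := mul_le_mul_of_nonneg_left h4 (hx0 i hi)

/-- The local lemma: from `J` to `K ∪ J`. -/
theorem lll_mono {E : ι → Set Ω} (hm : ∀ i, MeasurableSet (E i)) (I : Finset ι)
    (N : ι → Finset ι) (x : ι → ℝ) (hx0 : ∀ i ∈ I, 0 ≤ x i) (hx1 : ∀ i ∈ I, x i ≤ 1)
    (hN : ∀ i ∈ I, N i ⊆ I)
    (hind : ∀ i ∈ I, ∀ J : Finset ι, J ⊆ I → i ∉ J → Disjoint J (N i) →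
      μ.real (E i ∩ AA E J) = μ.real (E i) * μ.real (AA E J))
    (h : ∀ i ∈ I, μ.real (E i) ≤ x i * ∏ j ∈ N i, (1 - x j)) (J : Finset ι) (hJ : J ⊆ I) :
    ∀ K : Finset ι, K ⊆ I → Disjoint K J →
      (∏ j ∈ K, (1 - x j)) * μ.real (AA E J) ≤ μ.real (AA E (K ∪ J)) := by
  intro K
  induction K using Finset.induction_on with
  | empty => intro _ _; simp
  | insert k K hkK ihK =>
    intro hK hd
    rw [disjoint_insert_left] at hd
    have hkI : k ∈ I := hK (mem_insert_self _ _)
    have hKs : K ⊆ I := (subset_insert _ _).trans hK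
    have h1 := ihK hKs hd.2
    have hknot : k ∉ K ∪ J := by
      rw [mem_union]
      rintro (ha | ha)
      · exact hkK ha
      · exact hd.1 ha
    have h2 := lll_cond hm I N x hx0 hx1 hN hind h _ (K ∪ J) rfl (union_subset hKs hJ) k hkI hknot
    rw [insert_union, real_insert hm, prod_insert hkK]
    have h3 : 0 ≤ 1 - x k := by linarith [hx1 k hkI]
    calc (1 - x k) * (∏ j ∈ K, (1 - x j)) * μ.real (AA E J)
        = (1 - x k) * ((∏ j ∈ K, (1 - x j)) * μ.real (AA E J)) := by ring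
      _ ≤ (1 - x k) * μ.real (AA E (K ∪ J)) := mul_le_mul_of_nonneg_left h1 h3
      _ ≤ _ := by linarith

/-- The local lemma. -/
theorem lll {E : ι → Set Ω} (hm : ∀ i, MeasurableSet (E i)) (I : Finset ι)
    (N : ι → Finset ι) (x : ι → ℝ) (hx0 : ∀ i ∈ I, 0 ≤ x i) (hx1 : ∀ i ∈ I, x i ≤ 1)
    (hN : ∀ i ∈ I, N i ⊆ I)
    (hind : ∀ i ∈ I, ∀ J : Finset ι, J ⊆ I → i ∉ J → Disjoint J (N i) →
      μ.real (E i ∩ AA E J) = μ.real (E i) * μ.real (AA E J))
    (h : ∀ i ∈ I, μ.real (E i) ≤ x i * ∏ j ∈ N i, (1 - x j)) :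
    ∏ j ∈ I, (1 - x j) ≤ μ.real (AA E I) := by
  have := lll_mono hm I N x hx0 hx1 hN hind h ∅ (empty_subset _) I subset_rfl (by simp)
  simpa [AA_empty] using this

end Pool.Agent.Work.MP_b0c12c_nt_helper55
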